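import Pool.Agent.W866.SS.Main
import Pool.Agent.W684.FM.Ambient
import Pool.Agent.Y582.CG.Cont

/-!
# Strongly surjective sets of reals of cardinality `κ` from Martin's axiom for `κ` dense sets

This is the argument of `Pool.Agent.W866.SS.Solovay` and `Main` with `ℵ₁` replaced by an arbitrary
infinite cardinal.
-/

set_option autoImplicit false

namespace Pool.Agent.Y582.SS

open Set Cardinal Pool.Agent.W684 Pool.Agent.W684.FM Pool.Agent.W866.SS
open Pool.Agent.Y582.CG (lt_continuum masc)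

variable {N ιA ιB : Type}

/-- **Solovay's lemma.** -/
theorem solovay {κ : Cardinal.{0}} (hκ : ℵ₀ ≤ κ) (hMA : MartinAxiomCard κ) [Countable N] (hA : #ιA ≤ κ) (hB : #ιB ≤ κ)
    (A : ιA → Set N) (B : ιB → Set N)
    (h : ∀ b : ιB, ∀ F : Finset ιA, (B b \ ⋃ a ∈ F, A a).Infinite) :
    ∃ C : Set N, (∀ a, (C ∩ A a).Finite) ∧ ∀ b, (C ∩ B b).Infinite := by
  classical
  let D1 : ιA → Set (Cnd N ιA A) := fun a => {p | a ∈ p.F}
  let D2 : ιB × Finset N → Set (Cnd N ιA A) := fun bt => {p | ∃ x ∈ p.s, x ∈ B bt.1 ∧ x ∉ bt.2}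
  have hcard : #(↥(Set.range D1 ∪ Set.range D2)) ≤ κ := by
    have h1 : #(↥(Set.range D1)) ≤ κ := (Cardinal.mk_range_le).trans hA
    have h2 : #(↥(Set.range D2)) ≤ κ := by
      refine (Cardinal.mk_range_le).trans ?_
      rw [Cardinal.mk_prod, Cardinal.lift_id, Cardinal.lift_id]
      refine (mul_le_mul' hB (?_ : #(Finset N) ≤ κ)).trans ?_
      · exact (Cardinal.mk_le_aleph0 (α := Finset N)).trans hκ
      · rw [Cardinal.mul_eq_self hκ]
    refine (Cardinal.mk_union_le _ _).trans ((add_le_add h1 h2).trans ?_)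
    rw [Cardinal.add_eq_self hκ]
  haveI : Nonempty (Cnd N ιA A) := ⟨⟨∅, ∅⟩⟩
  obtain ⟨G, -, hup, hdir, hmeet⟩ := hMA (Cnd N ιA A) (cnd_ccc A) (Set.range D1 ∪ Set.range D2)
    hcard (by
      rintro D (⟨a, rfl⟩ | ⟨⟨b, t⟩, rfl⟩) p
      · refine ⟨⟨p.s, insert a p.F⟩, Finset.mem_insert_self _ _, subset_rfl,
          Finset.subset_insert _ _, fun x hx hx' => absurd hx hx'⟩
      · have hinf := h b p.F
        obtain ⟨x, hx, hxt⟩ := (hinf.diff (t.finite_toSet)).nonempty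
        refine ⟨⟨insert x p.s, p.F⟩, ⟨x, Finset.mem_insert_self _ _, hx.1, by simpa using hxt⟩,
          Finset.subset_insert _ _, subset_rfl, ?_⟩
        intro y hy hyp a ha hya
        rcases Finset.mem_insert.1 hy with rfl | hy'
        · exact hx.2 (Set.mem_iUnion₂.2 ⟨a, ha, hya⟩)
        · exact hyp hy')
  refine ⟨⋃ p ∈ G, (p.s : Set N), fun a => ?_, fun b => ?_⟩
  · obtain ⟨p, hpG, hpa⟩ := hmeet (D1 a) (Or.inl ⟨a, rfl⟩)
    refine (p.s.finite_toSet).subset ?_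
    rintro x ⟨hx, hxa⟩
    obtain ⟨q, hqG, hxq⟩ := Set.mem_iUnion₂.1 hx
    obtain ⟨r, -, hrp, hrq⟩ := hdir p hpG q hqG
    by_contra hxp
    exact hrp.2.2 x (hrq.1 hxq) hxp a hpa hxa
  · intro hfin
    obtain ⟨p, hpG, x, hxs, hxb, hxt⟩ := hmeet (D2 (b, hfin.toFinset)) (Or.inr ⟨_, rfl⟩)
    exact hxt (by
      rw [Set.Finite.mem_toFinset]
      exact ⟨Set.mem_iUnion₂.2 ⟨p, hpG, hxs⟩, hxb⟩)

/-- Under `MA_{κ}` every family of `κ` functions on a countable set is dominated. -/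
theorem dominate {κ : Cardinal.{0}} (hκ : ℵ₀ ≤ κ) (hMA : MartinAxiomCard κ) {M ι : Type} [Countable M] (hι : #ι ≤ κ)
    (F : ι → M → ℕ) : ∃ G : M → ℕ, ∀ k, {l | G l < F k l}.Finite := by
  classical
  obtain ⟨C, hC1, hC2⟩ := solovay (N := M × ℕ) (ιB := M) hκ hMA hι
    ((Cardinal.mk_le_aleph0 (α := M)).trans hκ)
    (fun k => {x | x.2 < F k x.1 }) (fun l => {x | x.1 = l}) (by
      intro l T
      have hfin : ({x : M × ℕ | x.1 = l} ∩ ⋃ k ∈ T, {x : M × ℕ | x.2 < F k x.1}).Finite := by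
        refine ((T.finite_toSet.biUnion (t := fun k => (fun m : ℕ => (l, m)) '' Set.Iio (F k l))
          (fun k _ => (Set.finite_Iio _).image _))).subset ?_
        rintro ⟨l', m⟩ ⟨h1, h2⟩
        obtain ⟨k, hk, hk2⟩ := Set.mem_iUnion₂.1 h2
        have h1' : l' = l := h1
        subst h1'
        exact Set.mem_iUnion₂.2 ⟨k, hk, m, hk2, rfl⟩
      have hinf : ({x : M × ℕ | x.1 = l}).Infinite := by
        refine Set.infinite_of_injective_forall_mem (f := fun m : ℕ => (l, m)) ?_ (fun m => rfl)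
        intro a b hab
        exact (Prod.ext_iff.1 hab).2
      have := hinf.diff hfin
      refine this.mono ?_
      rintro x ⟨hx1, hx2⟩
      exact ⟨hx1, fun hx3 => hx2 ⟨hx1, hx3⟩⟩)
  have hne : ∀ l : M, ∃ m : ℕ, (l, m) ∈ C := by
    intro l
    obtain ⟨⟨l', m⟩, hx, hl⟩ := (hC2 l).nonempty
    have : l' = l := hl
    subst this
    exact ⟨m, hx⟩
  choose G hG using hne
  refine ⟨G, fun k => ?_⟩
  refine ((hC1 k).image Prod.fst).subset ?_
  intro l hl
  exact ⟨(l, G l), ⟨hG l, hl⟩, rfl⟩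

theorem mk_tailSet_le {κ : Cardinal.{0}} (hκ : ℵ₀ ≤ κ) (E : Set Om) (hE : #E ≤ κ) : #(tailSet E) ≤ κ := by
  classical
  have h : tailSet E ⊆ Set.range (fun p : E × List ℚ =>
      (toLex (fun i => if i < p.2.length then p.2.getD i 0 else p.1.1 i) : Om)) := by
    rintro y ⟨e, he, hfin⟩
    obtain ⟨N, hN⟩ := hfin.bddAbove
    refine ⟨(⟨e, he⟩, pre y (N + 1)), ?_⟩
    have hl : (pre y (N + 1)).length = N + 1 := by simp [pre]
    funext i
    change (if i < (pre y (N + 1)).length then (pre y (N + 1)).getD i 0 else e i) = y i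
    rw [hl]
    split_ifs with h1
    · simp [pre, List.getD, h1]
    · by_contra h2
      have := hN (show i ∈ {n | y n ≠ e n} from fun h3 => h2 h3.symm)
      omega
  refine (Cardinal.mk_le_mk_of_subset h).trans (Cardinal.mk_range_le.trans ?_)
  rw [Cardinal.mk_prod, Cardinal.lift_id, Cardinal.lift_id]
  refine (mul_le_mul' hE ((Cardinal.mk_le_aleph0 (α := List ℚ)).trans
    hκ)).trans ?_
  rw [Cardinal.mul_eq_self hκ]

theorem strongly_om {κ : Cardinal.{0}} (hκ : ℵ₀ ≤ κ) (hMA : MartinAxiomCard κ) (E : Set Om) (hE : ∀ e ∈ E, ∀ n, e n = 0 ∨ e n = 1)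
    (hcard : #E ≤ κ) (K : Set Om) (hK : K ⊆ tailSet E) (hKne : K.Nonempty) :
    ∃ f : Om → Om, MonotoneOn f (tailSet E) ∧ f '' (tailSet E) = K := by
  classical
  have hX := mk_tailSet_le hκ E hcard
  have hdiff : ∀ x y : Om, x ≠ y →
      ({l | ∃ n, l = pre x n} ∩ {l : List ℚ | ∃ n, l = pre y n}).Finite := by
    intro x y hxy
    obtain ⟨j, -, hj⟩ := exists_first hxy
    refine ((Set.finite_Iio (j + 1)).image (pre x)).subset ?_
    rintro l ⟨⟨n, hn⟩, ⟨m, hm⟩⟩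
    refine ⟨n, ?_, hn.symm⟩
    by_contra hcon
    have hcon' : j + 1 ≤ n := not_lt.1 hcon
    have := pre_inj (hn.symm.trans hm)
    exact hj (this.2 j (by omega))
  have hinf : ∀ x : Om, ({l : List ℚ | ∃ n, l = pre x n}).Infinite := fun x =>
    Set.infinite_of_injective_forall_mem (f := fun n => pre x n)
      (fun a b hab => (pre_inj hab).1) (fun n => ⟨n, rfl⟩)
  obtain ⟨S, hS1, hS2⟩ := solovay (N := List ℚ) (ιA := K) (ιB := ↥(tailSet E \ K)) hκ hMA
    ((Cardinal.mk_le_mk_of_subset hK).trans hX)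
    ((Cardinal.mk_le_mk_of_subset Set.diff_subset).trans hX)
    (fun k => {l | ∃ n, l = pre k.1 n}) (fun x => {l | ∃ n, l = pre x.1 n}) (by
      intro x F
      have hfin : ({l : List ℚ | ∃ n, l = pre x.1 n} ∩
          ⋃ k ∈ F, {l : List ℚ | ∃ n, l = pre k.1 n}).Finite := by
        rw [Set.inter_iUnion₂]
        refine F.finite_toSet.biUnion (fun k _ => hdiff x.1 k.1 ?_)
        rintro h
        exact x.2.2 (h ▸ k.2)
      refine ((hinf x.1).sdiff hfin).mono ?_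
      rintro l ⟨h1, h2⟩
      exact ⟨h1, fun h3 => h2 ⟨h1, h3⟩⟩)
  refine exists_map E hE (fun F => dominate hκ hMA hX F) K hK hKne S (fun x hx => ⟨fun hxK => ?_,
    fun hfin => ?_⟩)
  · have h1 := hS1 ⟨x, hxK⟩
    have h2 : {n | pre x n ∈ S} = (pre x) ⁻¹' (S ∩ {l | ∃ n, l = pre x n}) := by
      ext n
      exact ⟨fun h => ⟨h, n, rfl⟩, fun h => h.1⟩
    rw [h2]
    exact h1.preimage (fun a _ b _ hab => (pre_inj hab).1)
  · by_contra hxK
    apply hS2 ⟨x, hx, hxK⟩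
    refine (hfin.image (pre x)).subset ?_
    rintro l ⟨hl, n, rfl⟩
    exact ⟨n, hl, rfl⟩

theorem main {κ : Cardinal.{0}} (hκ : ℵ₀ ≤ κ) (hMA : MartinAxiomCard κ) (A : Set ℝ) (hA : #A ≤ κ) :
    ∃ X : Set ℝ, #X = κ ∧ StronglySurjective X ∧
      ∃ g : ℝ → ℝ, StrictMonoOn g A ∧ Set.MapsTo g A X := by
  classical
  obtain ⟨A1, hA1⟩ : ∃ A1 : Set ℝ, #A1 = κ :=
    Cardinal.le_mk_iff_exists_set.1 (by rw [Cardinal.mk_real]; exact (lt_continuum hκ (masc hMA)).le)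
  obtain ⟨ψ, hψ, hψ01⟩ := exists_real_embedding
  obtain ⟨φ, hφ⟩ := exists_embedding
  let E : Set Om := ψ '' (A ∪ A1)
  have hE : ∀ e ∈ E, ∀ n, e n = 0 ∨ e n = 1 := by
    rintro _ ⟨a, -, rfl⟩ n; exact hψ01 a n
  have hcard : #E ≤ κ := by
    refine Cardinal.mk_image_le.trans ((Cardinal.mk_union_le _ _).trans
      ((add_le_add hA hA1.le).trans ?_))
    rw [Cardinal.add_eq_self hκ]
  have hEt : E ⊆ tailSet E := fun e he => ⟨e, he, by simp⟩
  refine ⟨φ '' (tailSet E), ?_, ?_, fun a => φ (ψ a), ?_, ?_⟩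
  · rw [Cardinal.mk_image_eq hφ.injective]
    refine le_antisymm (mk_tailSet_le hκ E hcard) ?_
    rw [← hA1, ← Cardinal.mk_image_eq (s := A1) hψ.injective]
    exact Cardinal.mk_le_mk_of_subset ((Set.image_mono Set.subset_union_right).trans hEt)
  · intro K hK hKne
    let K' : Set Om := {y | y ∈ tailSet E ∧ φ y ∈ K}
    have hKK' : φ '' K' = K := by
      ext z
      constructor
      · rintro ⟨y, hy, rfl⟩; exact hy.2
      · intro hz
        obtain ⟨y, hy, rfl⟩ := hK hz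
        exact ⟨y, ⟨hy, hz⟩, rfl⟩
    obtain ⟨f, hf1, hf2⟩ := strongly_om hκ hMA E hE hcard K' (fun y hy => hy.1) (by
      obtain ⟨z, hz⟩ := hKne
      obtain ⟨y, hy, rfl⟩ := hK hz
      exact ⟨y, hy, hz⟩)
    have hinv : ∀ y, Function.invFun φ (φ y) = y := Function.leftInverse_invFun hφ.injective
    refine ⟨fun z => φ (f (Function.invFun φ z)), ?_, ?_⟩
    · rintro _ ⟨y, hy, rfl⟩ _ ⟨y', hy', rfl⟩ hle
      change φ (f (Function.invFun φ (φ y))) ≤ φ (f (Function.invFun φ (φ y')))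
      rw [hinv, hinv]
      exact hφ.monotone (hf1 hy hy' (hφ.le_iff_le.1 hle))
    · rw [← hKK', ← hf2]
      ext z
      constructor
      · rintro ⟨_, ⟨y, hy, rfl⟩, rfl⟩
        refine ⟨f y, ⟨y, hy, rfl⟩, ?_⟩
        change φ (f y) = φ (f (Function.invFun φ (φ y)))
        rw [hinv]
      · rintro ⟨_, ⟨y, hy, rfl⟩, rfl⟩
        refine ⟨φ y, ⟨y, hy, rfl⟩, ?_⟩
        change φ (f (Function.invFun φ (φ y))) = φ (f y)
        rw [hinv]
  · intro a _ b _ hab
    exact hφ (hψ hab)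
  · intro a ha
    exact ⟨ψ a, hEt ⟨a, Or.inl ha, rfl⟩, rfl⟩

end Pool.Agent.Y582.SS
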